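import Mathlib
import Pool.Agent.Lead.FreeSph1

open Finset Function FreeGroup Pool.Agent.Lead.FreeSph

namespace Pool.Agent.Results.MP_689404_al.Formula

variable {α : Type} [DecidableEq α] [Fintype α]

open scoped Classical in
/-- Euler characteristic bound in the coset graph. -/
lemma euler (A : Finset (FreeGroup α)) (ℓ : FreeGroup A →* FreeGroup α)
    (hℓ : ℓ = FreeGroup.lift fun x : A => (x : FreeGroup α)) (hA : Injective ℓ)
    (n m : ℕ) (hn : ∀ g ∈ A, g.norm = n) (hm : n ≤ 2 * m + 1)
    (H : Subgroup (FreeGroup α)) (hH : H = ℓ.range)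
    (V : Finset (FreeGroup α ⧸ H)) (hV : ∀ v, v ∈ V ↔ ∃ g : FreeGroup α, g.norm ≤ m ∧ (g : _ ⧸ H) = v) :
    A.card + V.card ≤
      ((V ×ˢ (univ : Finset α)).filter fun e => (FreeGroup.of e.2) • e.1 ∈ V).card + 1 := by
  subst hH
  set E := (V ×ˢ (univ : Finset α)).filter fun e => (FreeGroup.of e.2) • e.1 ∈ V with hE
  let K := Multiplicative (ZMod 2)
  let φ : (A → K) → (ℓ.range →* K) := fun c =>
    (FreeGroup.lift c).comp (MonoidHom.ofInjective hA).symm.toMonoidHom
  have hmem : ∀ a : A, (a : FreeGroup α) ∈ ℓ.range := fun a => ⟨FreeGroup.of a, by simp [hℓ]⟩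
  have hφ : ∀ c (a : A), φ c ⟨a, hmem a⟩ = c a := by
    intro c a
    have : (MonoidHom.ofInjective hA).symm ⟨a, hmem a⟩ = FreeGroup.of a := by
      rw [MulEquiv.symm_apply_eq]
      apply Subtype.ext
      simp [MonoidHom.ofInjective_apply, hℓ]
    simp [φ, this]
  have hout : ∀ g : FreeGroup α, ((g : _ ⧸ ℓ.range).out)⁻¹ * g ∈ ℓ.range := fun g => by
    rw [← QuotientGroup.eq]; simp
  let F : (A → K) × (V → K) → FreeGroup α → K := fun p g =>
    φ p.1 ⟨_, hout g⟩ * (if h : (g : _ ⧸ ℓ.range) ∈ V then p.2 ⟨_, h⟩ else 1)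
  have hF : ∀ p g (h : ℓ.range), F p (g * h) = F p g * φ p.1 h := by
    intro p g h
    have e : ((g * h : FreeGroup α) : _ ⧸ ℓ.range) = g := by simp
    have e2 : (⟨_, hout (g * h)⟩ : ℓ.range) = ⟨_, hout g⟩ * h := by
      apply Subtype.ext
      simp only [e, Subgroup.coe_mul, mul_assoc]
    have e3 : φ p.1 ⟨_, hout (g * h)⟩ = φ p.1 ⟨_, hout g⟩ * φ p.1 h := by
      rw [e2, _root_.map_mul]
    show φ p.1 ⟨_, hout (g * h)⟩ * (if h' : ((g * h : FreeGroup α) : _ ⧸ ℓ.range) ∈ V
      then p.2 ⟨_, h'⟩ else 1) = φ p.1 ⟨_, hout g⟩ * (if h' : (g : _ ⧸ ℓ.range) ∈ V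
      then p.2 ⟨_, h'⟩ else 1) * φ p.1 h
    rw [e3, mul_right_comm]
    congr 2
    simp only [e]
  let Ψ : (A → K) × (V → K) → (E → K) × K := fun p =>
    (fun e => F p (FreeGroup.of e.1.2 * e.1.1.out) / F p e.1.1.out, F p 1)
  have hΨ : Injective Ψ := by
    intro p p' hp
    have h1 : F p 1 = F p' 1 := congrArg Prod.snd hp
    have h2 : ∀ (x : α) (g : FreeGroup α), (g : _ ⧸ ℓ.range) ∈ V →
        ((FreeGroup.of x * g : FreeGroup α) : _ ⧸ ℓ.range) ∈ V →
        F p (FreeGroup.of x * g) / F p g = F p' (FreeGroup.of x * g) / F p' g := by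
      intro x g hg hxg
      have h3 := congrFun (congrArg Prod.fst hp) ⟨((g : _ ⧸ ℓ.range), x), by
        simp only [hE, mem_filter, mem_product, mem_univ, and_true]
        exact ⟨hg, hxg⟩⟩
      simp only [Ψ] at h3
      have e : ∀ q, F q (FreeGroup.of x * g) / F q g =
          F q (FreeGroup.of x * (g : _ ⧸ ℓ.range).out) / F q (g : _ ⧸ ℓ.range).out := by
        intro q
        have e1 := hF q (FreeGroup.of x * (g : _ ⧸ ℓ.range).out) ⟨_, hout g⟩
        have e2 := hF q ((g : _ ⧸ ℓ.range).out) ⟨_, hout g⟩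
        simp only [mul_assoc, mul_inv_cancel_left] at e1 e2
        rw [e1, e2, mul_div_mul_right_eq_div]
      rw [e, e, h3]
    have h3 : ∀ w : List (α × Bool), (∀ s, s <:+ w → ((mk s : FreeGroup α) : _ ⧸ ℓ.range) ∈ V) →
        F p (mk w) = F p' (mk w) := by
      intro w
      induction w with
      | nil => intro _; exact h1
      | cons c w ih =>
        intro h
        have i1 := ih fun s hs => h s (hs.trans (List.suffix_cons _ _))
        have v1 := h w (List.suffix_cons _ _)
        have v2 := h _ List.suffix_rfl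
        obtain ⟨x, b⟩ := c
        cases b
        · have e : mk w = FreeGroup.of x * mk ((x, false) :: w) := by
            have : mk ((x, false) :: w) = (FreeGroup.of x)⁻¹ * mk w := by
              rw [FreeGroup.of, inv_mk, mul_mk]; rfl
            rw [this, mul_inv_cancel_left]
          have := h2 x _ v2 (e ▸ v1)
          rw [← e, i1] at this
          exact div_right_injective this
        · have e : mk ((x, true) :: w) = FreeGroup.of x * mk w := by
            rw [FreeGroup.of, mul_mk]; rfl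
          have := h2 x _ v1 (e ▸ v2)
          rw [← e, i1] at this
          exact div_left_injective this
    have h4 : p.1 = p'.1 := by
      funext a
      have h5 := h3 (a : FreeGroup α).toWord (by
        rintro s ⟨u, hu⟩
        have hl : u.length + s.length = n := by
          rw [← hn a a.2, FreeGroup.norm, ← hu, List.length_append]
        rw [hV]
        by_cases hs : s.length ≤ m
        · exact ⟨mk s, norm_mk_le.trans hs, rfl⟩
        · refine ⟨(mk u)⁻¹, ?_, ?_⟩
          · rw [norm_inv_eq]; exact norm_mk_le.trans (by omega)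
          · rw [QuotientGroup.eq, inv_inv, mul_mk, hu, mk_toWord]
            exact hmem a)
      rw [mk_toWord] at h5
      have e1 := hF p 1 ⟨a, hmem a⟩
      have e2 := hF p' 1 ⟨a, hmem a⟩
      simp only [one_mul, hφ] at e1 e2
      rw [e1, e2, h1] at h5
      exact mul_left_cancel h5
    refine Prod.ext h4 ?_
    funext ⟨v, hv⟩
    obtain ⟨g, hg, rfl⟩ := (hV v).1 hv
    have h5 := h3 g.toWord (by
      rintro s hs
      rw [hV]
      exact ⟨mk s, norm_mk_le.trans (hs.length_le.trans hg), rfl⟩)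
    rw [mk_toWord] at h5
    simp only [F, hv, dif_pos, h4] at h5
    exact mul_left_cancel h5
  have hc := Fintype.card_le_of_injective Ψ hΨ
  simp only [K, Fintype.card_prod, Fintype.card_fun, Fintype.card_multiplicative, ZMod.card,
    Fintype.card_coe] at hc
  rw [← pow_add, ← pow_succ] at hc
  exact (Nat.pow_le_pow_iff_right one_lt_two).1 hc

/-- sphere -/
def Sg (α : Type) [DecidableEq α] [Fintype α] : ℕ → Finset (FreeGroup α)
  | 0 => {1}
  | j + 1 => (univ.biUnion (R j)).image mk

lemma mem_Sg (g : FreeGroup α) : g ∈ Sg α g.norm := by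
  rw [FreeGroup.norm]
  cases hw : g.toWord with
  | nil => simp [Sg, toWord_eq_nil_iff.1 hw]
  | cons c t =>
    simp only [List.length_cons, Sg, mem_image, mem_biUnion, mem_univ, true_and]
    exact ⟨c :: t, ⟨c, (mem_R _ _ _).2 ⟨t, rfl, rfl, hw ▸ isReduced_toWord⟩⟩,
      by rw [← hw, mk_toWord]⟩

lemma card_Sg (j : ℕ) :
    (Sg α (j + 1)).card ≤ 2 * Fintype.card α * (2 * Fintype.card α - 1) ^ j := by
  refine card_image_le.trans (card_biUnion_le.trans ?_)
  simp [card_R, mul_comm]

/-- ball -/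
def Bl (α : Type) [DecidableEq α] [Fintype α] : ℕ → Finset (FreeGroup α)
  | 0 => Sg α 0
  | m + 1 => Bl α m ∪ Sg α (m + 1)

/-- elements of length below `m` and of the other parity -/
def Od (α : Type) [DecidableEq α] [Fintype α] : ℕ → Finset (FreeGroup α)
  | 0 => ∅
  | 1 => Sg α 0
  | m + 2 => Od α m ∪ Sg α (m + 1)

lemma mem_Bl (g : FreeGroup α) : ∀ m, g.norm ≤ m → g ∈ Bl α m
  | 0, h => by
    have := mem_Sg g
    rwa [Nat.le_zero.1 h] at this
  | m + 1, h => by
    rw [Bl, mem_union]
    rcases Nat.lt_or_ge g.norm (m + 1) with h1 | h1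
    · exact Or.inl (mem_Bl g m (by omega))
    · right; rw [← le_antisymm h h1]; exact mem_Sg g

lemma mem_Od (g : FreeGroup α) : ∀ m, g.norm ≤ m → g.norm % 2 ≠ m % 2 → g ∈ Od α m
  | 0, h, h' => by omega
  | 1, h, h' => by
    have := mem_Sg g
    rwa [show g.norm = 0 by omega] at this
  | m + 2, h, h' => by
    rw [Od, mem_union]
    rcases Nat.lt_or_ge g.norm (m + 1) with h1 | h1
    · exact Or.inl (mem_Od g m (by omega) (by omega))
    · right; rw [show m + 1 = g.norm by omega]; exact mem_Sg g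

lemma card_Bl {r : ℕ} (hr : Fintype.card α = r + 1) :
    ∀ m, r * (Bl α m).card + 1 ≤ (r + 1) * (2 * r + 1) ^ m
  | 0 => by simp [Bl, Sg]
  | m + 1 => by
    have h1 := card_Bl hr m
    have h2 := card_Sg (α := α) m
    have h3 : (Bl α (m + 1)).card ≤ (Bl α m).card + (Sg α (m + 1)).card := card_union_le _ _
    rw [hr, show 2 * (r + 1) - 1 = 2 * r + 1 by omega] at h2
    rw [pow_succ]
    nlinarith [Nat.mul_le_mul_left r h3, Nat.mul_le_mul_left r h2]

lemma card_Od {r : ℕ} (hr : Fintype.card α = r + 1) :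
    ∀ m, 1 ≤ m → 2 * r * (Od α m).card + 1 ≤ (2 * r + 1) ^ m
  | 0, h => by omega
  | 1, _ => by simp [Od, Sg]
  | m + 2, _ => by
    have h1 : 2 * r * (Od α m).card + 1 ≤ (2 * r + 1) ^ m := by
      rcases Nat.eq_zero_or_pos m with rfl | hm
      · simp [Od]
      · exact card_Od hr m hm
    have h2 := card_Sg (α := α) m
    have h3 : (Od α (m + 2)).card ≤ (Od α m).card + (Sg α (m + 1)).card := card_union_le _ _
    rw [hr, show 2 * (r + 1) - 1 = 2 * r + 1 by omega] at h2
    rw [pow_succ, pow_succ]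
    nlinarith [Nat.mul_le_mul_left (2 * r) h3, Nat.mul_le_mul_left (2 * r) h2]

/-- parity of length -/
def par : FreeGroup α →* Multiplicative (ZMod 2) := FreeGroup.lift fun _ => Multiplicative.ofAdd 1

omit [DecidableEq α] [Fintype α] in
lemma par_mk (w : List (α × Bool)) : par (mk w) = Multiplicative.ofAdd (w.length : ZMod 2) := by
  induction w with
  | nil => simp [← one_eq_mk]
  | cons c w ih =>
    have : mk (c :: w) = mk [c] * mk w := by rw [mul_mk]; rfl
    rw [this, _root_.map_mul, ih]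
    obtain ⟨x, b⟩ := c
    have h1 : par (mk [(x, b)]) = Multiplicative.ofAdd (1 : ZMod 2) := by
      cases b
      · simp [par]; rfl
      · simp [par]
    rw [h1, ← ofAdd_add]
    simp [add_comm]

omit [Fintype α] in
lemma par_norm (g : FreeGroup α) : par g = Multiplicative.ofAdd (g.norm : ZMod 2) := by
  rw [← mk_toWord (x := g), par_mk, mk_toWord]; rfl

lemma upper_odd {r : ℕ} (hr : Fintype.card α = r + 1) (A : Finset (FreeGroup α))
    (hA : Injective (FreeGroup.lift fun x : A => (x : FreeGroup α)))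
    (m : ℕ) (hn : ∀ g ∈ A, g.norm = 2 * m + 1) : A.card ≤ (r + 1) * (2 * r + 1) ^ m := by
  classical
  obtain ⟨H, hH⟩ : ∃ H, H = (FreeGroup.lift fun x : A => (x : FreeGroup α)).range := ⟨_, rfl⟩
  let V : Finset (FreeGroup α ⧸ H) := ((Bl α m).filter fun g => g.norm ≤ m).image (↑)
  have h1 := euler A _ rfl hA _ m hn le_rfl H hH V (fun v => by
    simp only [V, mem_image, mem_filter]
    exact ⟨fun ⟨g, h1, h2⟩ => ⟨g, h1.2, h2⟩, fun ⟨g, h1, h2⟩ => ⟨g, ⟨mem_Bl g m h1, h1⟩, h2⟩⟩)
  have h2 := h1.trans (Nat.add_le_add_right (card_filter_le _ _) 1)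
  rw [card_product, card_univ, hr] at h2
  have h3 : V.card ≤ (Bl α m).card := card_image_le.trans (card_filter_le _ _)
  have h4 := card_Bl hr m
  nlinarith [Nat.mul_le_mul_left r h3]

lemma upper_even {r : ℕ} (hr : Fintype.card α = r + 1) (A : Finset (FreeGroup α))
    (hA : Injective (FreeGroup.lift fun x : A => (x : FreeGroup α)))
    (m : ℕ) (hm : 1 ≤ m) (hn : ∀ g ∈ A, g.norm = 2 * m) : A.card ≤ (2 * r + 1) ^ m := by
  classical
  obtain ⟨H, hH⟩ : ∃ H, H = (FreeGroup.lift fun x : A => (x : FreeGroup α)).range := ⟨_, rfl⟩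
  let V : Finset (FreeGroup α ⧸ H) := ((Bl α m).filter fun g => g.norm ≤ m).image (↑)
  have hV : ∀ v, v ∈ V ↔ ∃ g : FreeGroup α, g.norm ≤ m ∧ (g : _ ⧸ H) = v := fun v => by
    simp only [V, mem_image, mem_filter]
    exact ⟨fun ⟨g, h1, h2⟩ => ⟨g, h1.2, h2⟩, fun ⟨g, h1, h2⟩ => ⟨g, ⟨mem_Bl g m h1, h1⟩, h2⟩⟩
  have h1 := euler A _ rfl hA _ m hn (by omega) H hH V hV
  have hpar : ∀ h ∈ H, par h = 1 := by
    rw [hH]
    rintro _ ⟨w, rfl⟩
    have : par.comp (FreeGroup.lift fun x : A => (x : FreeGroup α)) = 1 := by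
      ext a
      simp only [MonoidHom.comp_apply, FreeGroup.lift_apply_of, MonoidHom.one_apply, par_norm,
        hn a a.2]
      push_cast
      have : (2 : ZMod 2) = 0 := rfl
      simp [this]
    exact DFunLike.congr_fun this w
  let P : FreeGroup α ⧸ H → Multiplicative (ZMod 2) := fun v => par v.out
  have hP : ∀ g : FreeGroup α, P g = par g := by
    intro g
    obtain ⟨h, hh⟩ := QuotientGroup.mk_out_eq_mul H g
    simp only [P, hh, _root_.map_mul, hpar h h.2, mul_one]
  have hPs : ∀ (x : α) (v : FreeGroup α ⧸ H), P (FreeGroup.of x • v) ≠ P v := by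
    intro x v
    obtain ⟨g, rfl⟩ := QuotientGroup.mk_surjective v
    have : FreeGroup.of x • (g : FreeGroup α ⧸ H) = ((FreeGroup.of x * g : FreeGroup α) : _ ⧸ H) :=
      rfl
    rw [this, hP, hP, _root_.map_mul]
    simp only [par, FreeGroup.lift_apply_of, ne_eq, mul_eq_right]
    decide
  set E := (V ×ˢ (univ : Finset α)).filter fun e => (FreeGroup.of e.2) • e.1 ∈ V with hE
  have hEb : ∀ (Q : Multiplicative (ZMod 2) → Prop) [DecidablePred Q],
      (∀ a b, a ≠ b → Q a ∨ Q b) →
      E.card ≤ (V.filter fun v => Q (P v)).card * ((r + 1) * 2) := by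
    intro Q _ hQ
    have : E.card ≤ ((V.filter fun v => Q (P v)) ×ˢ (univ : Finset (α × Bool))).card := by
      refine card_le_card_of_injOn
        (fun e => if Q (P e.1) then (e.1, e.2, true) else (FreeGroup.of e.2 • e.1, e.2, false))
        ?_ ?_
      · rintro ⟨v, x⟩ he
        simp only [hE, coe_filter, mem_product, mem_univ, and_true, Set.mem_ofPred_eq] at he
        by_cases h : Q (P v)
        · simp [h, he.1]
        · have := (hQ _ _ (hPs x v)).resolve_right h
          simp [h, he.2, this]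
      · rintro ⟨v, x⟩ - ⟨v', x'⟩ - h
        by_cases h1 : Q (P v) <;> by_cases h2 : Q (P v') <;>
          simp only [h1, h2, if_true, if_false, Prod.mk.injEq] at h
        · simp [h.1, h.2.1]
        · simp at h
        · simp at h
        · obtain ⟨h3, rfl, -⟩ := h
          rw [smul_left_cancel _ h3]
    rwa [card_product, card_univ, Fintype.card_prod, hr, Fintype.card_bool] at this
  let c : Multiplicative (ZMod 2) := Multiplicative.ofAdd (m : ZMod 2)
  have hU := hEb (fun a => a = c) (by generalize c = c; revert c; decide)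
  have hW := hEb (fun a => ¬ a = c) (by generalize c = c; revert c; decide)
  have hUW := card_filter_add_card_filter_not (s := V) (fun v => P v = c)
  have hWle : (V.filter fun v => ¬ P v = c).card ≤ (Od α m).card := by
    refine le_trans (card_le_card (t := (Od α m).image (↑)) ?_) card_image_le
    intro v hv
    rw [mem_filter] at hv
    obtain ⟨g, hg, rfl⟩ := (hV v).1 hv.1
    refine mem_image.2 ⟨g, mem_Od g m hg fun h => hv.2 ?_, rfl⟩
    rw [hP, par_norm]
    exact congrArg _ ((ZMod.natCast_eq_natCast_iff' _ _ _).2 h)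
  have h4 := card_Od hr m hm
  generalize (V.filter fun v => ¬ P v = c).card = W at *
  generalize (V.filter fun v => P v = c).card = U at *
  have h5 : A.card ≤ 2 * r * W + 1 := by
    rcases le_total U W with h | h <;> nlinarith
  nlinarith [Nat.mul_le_mul_left (2 * r) hWle]

theorem result (r n : ℕ) (hr : 1 ≤ r) (hn : 1 ≤ n) :
    IsGreatest {k : ℕ | ∃ A : Finset (FreeGroup (Fin r)), A.card = k ∧ (∀ g ∈ A, g.norm = n) ∧
        Function.Injective (FreeGroup.lift fun x : A => (x : FreeGroup (Fin r)))}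
      (if Even n then (2 * r - 1) ^ (n / 2) else r * (2 * r - 1) ^ ((n - 1) / 2)) := by
  obtain ⟨r, rfl⟩ : ∃ r', r = r' + 1 := ⟨r - 1, by omega⟩
  have e : 2 * (r + 1) - 1 = 2 * r + 1 := by omega
  rcases Nat.even_or_odd' n with ⟨m, rfl | rfl⟩
  · obtain ⟨m, rfl⟩ : ∃ m', m = m' + 1 := ⟨m - 1, by omega⟩
    rw [if_pos (even_two_mul _), show 2 * (m + 1) / 2 = m + 1 by omega]
    constructor
    · simpa using lower_even (0 : Fin (r + 1)) m
    · rintro k ⟨A, rfl, h1, h2⟩
      rw [e]
      exact upper_even (Fintype.card_fin _) A h2 _ (by omega) h1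
  · rw [if_neg (by simp), show (2 * m + 1 - 1) / 2 = m by omega]
    constructor
    · simpa using lower_odd (α := Fin (r + 1)) m
    · rintro k ⟨A, rfl, h1, h2⟩
      rw [e]
      exact upper_odd (Fintype.card_fin _) A h2 _ h1

end Pool.Agent.Results.MP_689404_al.Formula
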